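import Pool.Agent.W541.DL.Asm

namespace Pool.Agent.Results.MP_cd6101_pr.ShiftSingular

open MeasureTheory ProbabilityTheory Filter Topology Pool.Agent.W541.DL

/-- For every smooth compactly supported `h` which is negative somewhere (such `h` exist) the law
of the `h`-shift of the directed landscape and the law of the directed landscape are mutually
singular. -/
theorem result :
    (∃ h : ℝ × ℝ → ℝ, ContDiff ℝ (⊤ : ℕ∞) h ∧ HasCompactSupport h ∧ ∃ q, h q < 0) ∧
    ∀ h : ℝ × ℝ → ℝ, ContDiff ℝ (⊤ : ℕ∞) h → HasCompactSupport h → (∃ q, h q < 0) →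
      ∀ (Ω : Type) [MeasurableSpace Ω] (P : Measure Ω) (L : Ω → C(R4, ℝ)),
        IsDirectedLandscape P L →
        (∃ U : Set (R4 → EReal), MeasurableSet U ∧
          (∀ᵐ ω ∂P, (fun p => ((L ω p : ℝ) : EReal)) ∈ U) ∧
          (∀ᵐ ω ∂P, shiftVal h (L ω) ∉ U)) ∧
        (∀ L' : Ω → C(R4, ℝ),
          (∀ᵐ ω ∂P, ∀ p : R4, ((L' ω p : ℝ) : EReal) = shiftVal h (L ω) p) →
          ∃ U : Set C(R4, ℝ), MeasurableSet[borel C(R4, ℝ)] U ∧
            P {ω | L ω ∈ U} = 1 ∧ P {ω | L' ω ∈ U} = 0) := by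
  refine ⟨exists_h, fun h h1 h2 h3 => ?_⟩
  obtain ⟨q, hq⟩ := h3
  exact concl sep sing ste h h1.continuous h2 q hq

end Pool.Agent.Results.MP_cd6101_pr.ShiftSingular
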